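import Pool.Agent.P.MP_49c4d9_an.SC.Ratio
import Pool.Agent.P.MP_f981b0_an.ShiftOp

set_option autoImplicit false

namespace Pool.Agent.P.MP_49c4d9_an.SC

open Filter Topology
open scoped InnerProductSpace
open Pool.Agent.P.MP_f981b0_an (exists_cumul hypKer toeplitz)

lemma fourier_unique {Φ : ℤ → ℂ} (hΦ : Summable Φ)
    (h : ∀ x : AddCircle (1 : ℝ), ∑' k, fourier (-k) x * Φ k = 0) (k₀ : ℤ) : Φ k₀ = 0 := by
  have : Fact ((0 : ℝ) < 1) := ⟨one_pos⟩
  have s : Summable fun k => Φ k • (fourier (-k) : C(AddCircle (1 : ℝ), ℂ)) := by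
    refine Summable.of_norm_bounded (summable_norm_iff.2 hΦ) fun k => ?_
    rw [norm_smul, fourier_norm, mul_one]
  have e : ∑' k, Φ k • (fourier (-k) : C(AddCircle (1 : ℝ), ℂ)) = 0 := by
    ext x
    have := (ContinuousMap.evalCLM ℂ x).map_tsum s
    simp only [ContinuousMap.evalCLM_apply, ContinuousMap.smul_apply, smul_eq_mul] at this
    rw [this, ContinuousMap.zero_apply, ← h x]
    exact tsum_congr fun k => mul_comm _ _
  let L : C(AddCircle (1 : ℝ), ℂ) →L[ℂ] ℂ := (innerSL ℂ (fourierLp (T := 1) 2 (-k₀))).comp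
    (ContinuousMap.toLp (E := ℂ) 2 AddCircle.haarAddCircle ℂ)
  have hL : ∀ k, L (fourier (-k)) = if -k₀ = -k then 1 else 0 := fun k =>
    orthonormal_iff_ite.1 (orthonormal_fourier (T := 1)) (-k₀) (-k)
  have := L.map_tsum s
  rw [e, map_zero, tsum_eq_single k₀ (fun k hk => by
    rw [map_smul, hL, if_neg (fun h => hk (neg_injective h).symm), smul_zero]),
    map_smul, hL, if_pos rfl, smul_eq_mul, mul_one] at this
  exact this.symm

section

variable {X : Type*} [NormedAddCommGroup X] [NormedSpace ℂ X]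

lemma isClosed_hypKer (S : X →L[ℂ] X) (φ : X →L[ℂ] ℂ) : IsClosed (hypKer S φ : Set X) := by
  have : (hypKer S φ : Set X) = ⋂ A : X →L[ℂ] X, ⋂ _ : A * S = S * A, {y | φ (A y) = 0} := by
    ext y
    simp only [Set.mem_iInter, Set.mem_ofPred_eq]
    rfl
  rw [this]
  exact isClosed_iInter fun A => isClosed_iInter fun _ =>
    isClosed_eq (φ.continuous.comp A.continuous) continuous_const

lemma hypKer_inv {S B : X →L[ℂ] X} (hB : B * S = S * B) (φ : X →L[ℂ] ℂ) :
    ∀ y ∈ hypKer S φ, B y ∈ hypKer S φ := fun _ hy A hA =>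
  hy (A * B) (by rw [mul_assoc, hB, ← mul_assoc, hA, mul_assoc])

variable [CompleteSpace X]

lemma expand {u : ℤ → X} {ψ : ℤ → X →L[ℂ] ℂ} (hw : ∀ n, 0 < ‖u n‖) {C : ℝ}
    (hC : ∀ n, ‖u n‖ * ‖ψ n‖ ≤ C) {p g : ℤ → ℂ} (sp : Summable fun n => ‖p n‖)
    (sg : Summable fun n => ‖g n‖) :
    ∃ x : X, ∃ φ : X →L[ℂ] ℂ, ∀ A : X →L[ℂ] X,
      (Summable fun k => ∑' n,
        p n * g (n + k) * ((‖u (n + k)‖ / ‖u n‖ : ℝ) : ℂ) * ψ (n + k) (A (u n))) ∧
      φ (A x) = ∑' k, ∑' n,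
        p n * g (n + k) * ((‖u (n + k)‖ / ‖u n‖ : ℝ) : ℂ) * ψ (n + k) (A (u n)) := by
  have hC0 : 0 ≤ C := le_trans (by positivity) (hC 0)
  have hψn : ∀ n, ‖ψ n‖ ≤ C / ‖u n‖ := fun n => by
    rw [le_div_iff₀ (hw n), mul_comm]; exact hC n
  have hent : ∀ (A : X →L[ℂ] X) m n, ‖ψ m (A (u n))‖ ≤ C * ‖A‖ * (‖u n‖ / ‖u m‖) := by
    intro A m n
    calc ‖ψ m (A (u n))‖ ≤ ‖ψ m‖ * ‖A (u n)‖ := (ψ m).le_opNorm _
      _ ≤ (C / ‖u m‖) * (‖A‖ * ‖u n‖) :=
        mul_le_mul (hψn m) (A.le_opNorm _) (norm_nonneg _) (div_nonneg hC0 (hw m).le)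
      _ = _ := by ring
  let ξ : ℤ → ℂ := fun n => p n / (‖u n‖ : ℝ)
  let γ : ℤ → ℂ := fun n => g n * (‖u n‖ : ℝ)
  have nξ : ∀ n, ‖ξ n‖ = ‖p n‖ / ‖u n‖ := fun n => by simp [ξ]
  have nγ : ∀ n, ‖γ n‖ = ‖g n‖ * ‖u n‖ := fun n => by simp [γ]
  have sx : Summable fun n => ξ n • u n := by
    refine Summable.of_norm_bounded sp fun n => ?_
    rw [norm_smul, nξ, div_mul_cancel₀ _ (hw n).ne']
  have sφ : Summable fun n => γ n • ψ n := by
    refine Summable.of_norm_bounded (sg.mul_right C) fun n => ?_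
    rw [norm_smul, nγ, mul_assoc]
    exact mul_le_mul_of_nonneg_left (hC n) (norm_nonneg _)
  have evx : ∀ L : X →L[ℂ] ℂ, L (∑' n, ξ n • u n) = ∑' n, ξ n * L (u n) := fun L => by
    rw [L.map_tsum sx]
    simp
  have evφ : ∀ y : X, (∑' n, γ n • ψ n) y = ∑' n, γ n * ψ n y := fun y => by
    have := (ContinuousLinearMap.apply ℂ ℂ y).map_tsum sφ
    simpa using this
  refine ⟨∑' n, ξ n • u n, ∑' n, γ n • ψ n, fun A => ?_⟩
  let F : ℤ × ℤ → ℂ := fun q => ξ q.1 * (γ q.2 * ψ q.2 (A (u q.1)))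
  have sF : Summable F := by
    refine Summable.of_norm_bounded
      ((summable_mul_of_summable_norm (f := fun n => ‖p n‖) (g := fun n => ‖g n‖)
        (by simpa using sp) (by simpa using sg)).mul_right (C * ‖A‖)) fun q => ?_
    simp only [F, norm_mul, nξ, nγ]
    have h1 := hent A q.2 q.1
    have h2 := hw q.1
    have h3 := hw q.2
    calc ‖p q.1‖ / ‖u q.1‖ * (‖g q.2‖ * ‖u q.2‖ * ‖ψ q.2 (A (u q.1))‖)
        ≤ ‖p q.1‖ / ‖u q.1‖ * (‖g q.2‖ * ‖u q.2‖ * (C * ‖A‖ * (‖u q.1‖ / ‖u q.2‖))) := by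
          gcongr
      _ = _ := by field_simp
  have e1 : (∑' n, γ n • ψ n) (A (∑' n, ξ n • u n)) = ∑' q, F q := by
    have := evx ((∑' n, γ n • ψ n).comp A)
    simp only [ContinuousLinearMap.comp_apply] at this
    rw [this, sF.tsum_prod]
    refine tsum_congr fun n => ?_
    rw [evφ, ← tsum_mul_left]
  let E : ℤ × ℤ ≃ ℤ × ℤ :=
    { toFun := fun q => (q.2, q.2 + q.1)
      invFun := fun q => (q.2 - q.1, q.1)
      left_inv := fun q => by simp
      right_inv := fun q => by simp }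
  have sFE : Summable fun q => F (E q) := E.summable_iff.2 sF
  have e2 : ∀ k n, F (E (k, n)) =
      p n * g (n + k) * ((‖u (n + k)‖ / ‖u n‖ : ℝ) : ℂ) * ψ (n + k) (A (u n)) := by
    intro k n
    simp only [F, E, Equiv.coe_fn_mk, ξ, γ]
    push_cast
    ring
  refine ⟨?_, ?_⟩
  · simpa only [e2] using sFE.prod
  · rw [e1, ← E.tsum_eq, sFE.tsum_prod]
    simp only [e2]

end

variable {H : Type*} [NormedAddCommGroup H] [InnerProductSpace ℂ H] [CompleteSpace H]

lemma normal_of_ratio (b : HilbertBasis ℤ ℂ H) {W : ℤ → ℂ} (W0 : ∀ n, W n ≠ 0) {T : H →L[ℂ] H}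
    {c : ℤ → ℂ} (hc : ∀ m n, ⟪b m, T (b n)⟫_ℂ = c (m - n) * W m / W n)
    (hr : ∀ k, c k ≠ 0 → ∀ m n, ‖W (m + k)‖ / ‖W m‖ = ‖W (n + k)‖ / ‖W n‖) :
    IsStarNormal T := by
  have hd : Dense (Submodule.span ℂ (Set.range b) : Set H) :=
    Submodule.dense_iff_topologicalClosure_eq_top.2 b.dense_span
  refine ⟨?_⟩
  change star T * T = T * star T
  refine ContinuousLinearMap.ext_on hd ?_
  rintro _ ⟨n, rfl⟩
  refine b.repr.injective (lp.ext (funext fun m => ?_))
  rw [b.repr_apply_apply, b.repr_apply_apply, ContinuousLinearMap.star_eq_adjoint]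
  simp only [ContinuousLinearMap.mul_def, ContinuousLinearMap.comp_apply]
  rw [ContinuousLinearMap.adjoint_inner_right,
    ← ContinuousLinearMap.adjoint_inner_left T (ContinuousLinearMap.adjoint T (b n)) (b m),
    ← b.tsum_inner_mul_inner (T (b m)),
    ← b.tsum_inner_mul_inner (ContinuousLinearMap.adjoint T (b m)),
    ← (Equiv.subLeft (m + n)).tsum_eq]
  refine tsum_congr fun k => ?_
  rw [Equiv.subLeft_apply, ← inner_conj_symm (T (b m)), ContinuousLinearMap.adjoint_inner_left,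
    ContinuousLinearMap.adjoint_inner_right, ← inner_conj_symm (T (b k)), hc, hc, hc, hc,
    show m + n - k - m = n - k by ring, show m + n - k - n = m - k by ring]
  by_cases h0 : c (n - k) = 0
  · simp [h0]
  have h1 := hr _ h0 m k
  rw [show m + (n - k) = m + n - k by ring, show k + (n - k) = n by ring,
    div_eq_div_iff (norm_ne_zero_iff.2 (W0 _)) (norm_ne_zero_iff.2 (W0 _))] at h1
  have h2 : W (m + n - k) * (starRingEnd ℂ) (W (m + n - k)) * (W k * (starRingEnd ℂ) (W k)) =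
      W n * (starRingEnd ℂ) (W n) * (W m * (starRingEnd ℂ) (W m)) := by
    simp only [Complex.mul_conj, Complex.normSq_eq_norm_sq]
    norm_cast
    rw [← mul_pow, ← mul_pow, h1]
  have c0 : ∀ n, (starRingEnd ℂ) (W n) ≠ 0 := fun n => (map_ne_zero _).2 (W0 n)
  have := W0 n
  have := W0 k
  have := c0 m
  have := c0 k
  simp only [map_div₀, map_mul]
  field_simp
  linear_combination ((starRingEnd ℂ) (c (n - k)) * c (m - k)) * h2

theorem main (b : HilbertBasis ℤ ℂ H) (S : H →L[ℂ] H) (a : ℤ → ℂ) (ha : ∀ n, a n ≠ 0)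
    (hS : ∀ n, S (b n) = a n • b (n + 1)) (T : H →L[ℂ] H) (hT : T * S = S * T)
    (hred : ∀ K : Submodule ℂ H, IsClosed (K : Set H) → (∀ x ∈ K, T x ∈ K) →
      ∀ x ∈ K, ContinuousLinearMap.adjoint T x ∈ K) : IsStarNormal T := by
  classical
  have hd : Dense (Submodule.span ℂ (Set.range b) : Set H) :=
    Submodule.dense_iff_topologicalClosure_eq_top.2 b.dense_span
  have hb : ∀ m n, ⟪b m, b n⟫_ℂ = if m = n then 1 else 0 := orthonormal_iff_ite.1 b.orthonormal
  have hb1 : ∀ n, ‖b n‖ = 1 := b.orthonormal.1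
  obtain ⟨W, W0, hW⟩ := exists_cumul ha
  let u : ℤ → H := fun n => W n • b n
  let ψ : ℤ → H →L[ℂ] ℂ := fun n => (W n)⁻¹ • innerSL ℂ (b n)
  have ψa : ∀ n y, ψ n y = (W n)⁻¹ * ⟪b n, y⟫_ℂ := fun n y => by simp [ψ]
  have nu : ∀ n, ‖u n‖ = ‖W n‖ := fun n => by simp [u, norm_smul, hb1]
  have hw : ∀ n, 0 < ‖u n‖ := fun n => by rw [nu]; exact norm_pos_iff.2 (W0 n)
  have hu : ∀ n, S (u n) = u (n + 1) := fun n => by
    simp only [u]
    rw [map_smul, hS, smul_smul, hW, mul_comm]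
  have hψ : ∀ n x, ψ (n + 1) (S x) = ψ n x := fun n x => by
    have : (ψ (n + 1)).comp S = ψ n := by
      refine ContinuousLinearMap.ext_on hd ?_
      rintro _ ⟨m, rfl⟩
      simp only [ContinuousLinearMap.comp_apply, ψa, hS, inner_smul_right, hb, hW,
        add_left_inj]
      split_ifs with h
      · subst h
        have := ha n
        have := W0 n
        field_simp
      · simp
    exact congrArg (fun L : H →L[ℂ] ℂ => L x) this
  have hC : ∀ n, ‖u n‖ * ‖ψ n‖ ≤ 1 := fun n => by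
    simp only [ψ]
    rw [nu, norm_smul, norm_inv, innerSL_apply_norm, hb1, mul_one,
      mul_inv_cancel₀ (norm_ne_zero_iff.2 (W0 n))]
  let c : ℤ → ℂ := fun k => ψ k (T (u 0))
  have hc : ∀ m n, ⟪b m, T (b n)⟫_ℂ = c (m - n) * W m / W n := fun m n => by
    have h1 := toeplitz hu hψ hT (m - n) n
    rw [add_sub_cancel, ψa] at h1
    simp only [u, map_smul, inner_smul_right] at h1
    simp only [c, u, map_smul]
    rw [← h1]
    have := W0 m
    have := W0 n
    field_simp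
  have hadj : ∀ m n, ψ m (ContinuousLinearMap.adjoint T (u n)) =
      (starRingEnd ℂ) (c (n - m)) * ((‖u n‖ / ‖u m‖ : ℝ) : ℂ) ^ 2 := fun m n => by
    rw [ψa, ContinuousLinearMap.adjoint_inner_right, nu, nu]
    simp only [u, inner_smul_right]
    rw [← inner_conj_symm, hc]
    have e : ∀ n, ((‖W n‖ : ℝ) : ℂ) ^ 2 = W n * (starRingEnd ℂ) (W n) := fun n => by
      rw [Complex.mul_conj, Complex.normSq_eq_norm_sq]; push_cast; rfl
    push_cast
    rw [div_pow, e, e]
    have := W0 m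
    have : (starRingEnd ℂ) (W m) ≠ 0 := (map_ne_zero _).2 (W0 m)
    simp only [map_div₀, map_mul]
    field_simp
  have red : ∀ (x : H) (φ : H →L[ℂ] ℂ), (∀ A : H →L[ℂ] H, A * S = S * A → φ (A x) = 0) →
      φ (ContinuousLinearMap.adjoint T x) = 0 := fun x φ h => by
    have := hred (hypKer S φ) (isClosed_hypKer S φ) (hypKer_inv hT φ) x h 1 (by simp)
    simpa using this
  refine normal_of_ratio b W0 hc fun κ hκ => ?_
  simp only [← nu]
  by_cases hK : ∃ K : ℝ, ∀ n, ‖u n‖ ≤ K * ‖u (n + 1)‖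
  · obtain ⟨K, hK⟩ := hK
    have hwt : Wt (fun n => ‖u n‖) (max K ‖S‖) := ⟨hw, le_max_of_le_right (norm_nonneg _),
      fun n => by
        rw [← hu]
        exact (S.le_opNorm _).trans (mul_le_mul_of_nonneg_right (le_max_right _ _) (hw n).le),
      fun n => (hK n).trans (mul_le_mul_of_nonneg_right (le_max_left _ _) (hw _).le)⟩
    refine ratio_const hwt fun p g hp => ?_
    let Φ : ℤ → ℂ := fun k => ∑' n, p n * g (n + k) * ((‖u (n + k)‖ / ‖u n‖ : ℝ) : ℂ) *
      ψ (n + k) (ContinuousLinearMap.adjoint T (u n))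
    have sΦ : Summable Φ := by
      obtain ⟨x, φ, h⟩ := expand hw hC hp.1 hp.2.1
      exact (h _).1
    have hΦ : ∀ z : AddCircle (1 : ℝ), ∑' k, fourier (-k) z * Φ k = 0 := by
      intro z
      have nf : ∀ n, ‖fourier n z‖ ≤ 1 := fun n => (Circle.norm_coe _).le
      have ef : ∀ n k, fourier n z * p n * (fourier (-(n + k)) z * g (n + k)) =
          fourier (-k) z * (p n * g (n + k)) := fun n k => by
        have : fourier (-k) z = fourier n z * fourier (-(n + k)) z := by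
          rw [← fourier_add]; congr 2; ring
        rw [this]; ring
      obtain ⟨x, φ, h⟩ := expand hw hC (summable_bdd (β := fun n => fourier n z) hp.1 nf)
        (summable_bdd (β := fun n => fourier (-n) z) hp.2.1 fun n => nf _)
      have h1 := red x φ fun A hA => by
        rw [(h A).2]
        refine (tsum_congr fun k => ?_).trans tsum_zero
        have e : ∀ n, fourier n z * p n * (fourier (-(n + k)) z * g (n + k)) *
            ((‖u (n + k)‖ / ‖u n‖ : ℝ) : ℂ) * ψ (n + k) (A (u n)) =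
            (fourier (-k) z * ψ k (A (u 0))) *
              (p n * g (n + k) * ((‖u (n + k)‖ / ‖u n‖ : ℝ) : ℂ)) := fun n => by
          rw [ef, toeplitz hu hψ hA]; ring
        simp only [e]
        rw [tsum_mul_left, hp.2.2, mul_zero]
      rw [(h _).2] at h1
      rw [← h1]
      refine tsum_congr fun k => ?_
      simp only [Φ]
      rw [← tsum_mul_left]
      refine tsum_congr fun n => ?_
      rw [ef]; ring
    have h2 := fourier_unique sΦ hΦ (-κ)
    have e : ∀ n, p n * g (n + -κ) * ((‖u (n + -κ)‖ / ‖u n‖ : ℝ) : ℂ) *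
        ψ (n + -κ) (ContinuousLinearMap.adjoint T (u n)) =
        (starRingEnd ℂ) (c κ) * (p n * g (n - κ) * ((‖u n‖ / ‖u (n - κ)‖ : ℝ) : ℂ)) := fun n => by
      rw [hadj, show n - (n + -κ) = κ by ring, ← sub_eq_add_neg]
      have := hwt.ne n
      have := hwt.ne (n - κ)
      push_cast
      field_simp
    simp only [Φ, e] at h2
    rw [tsum_mul_left] at h2
    exact (mul_eq_zero.1 h2).resolve_left ((map_ne_zero _).2 hκ)
  · push Not at hK
    have hψn : ∀ n, ‖ψ n‖ ≤ 1 / ‖u n‖ := fun n => by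
      rw [le_div_iff₀ (hw n), mul_comm]; exact hC n
    have one : ∀ A : H →L[ℂ] H, A * S = S * A → ψ 0 (A (u 1)) = 0 := fun A hA => by
      have e : ∀ n, ψ n (A (u (n + 1))) = ψ 0 (A (u 1)) := fun n => by
        have h1 := toeplitz hu hψ hA (-1) (n + 1)
        have h2 := toeplitz hu hψ hA (-1) 1
        rw [add_neg_cancel_right] at h1
        rw [add_neg_cancel] at h2
        rw [h1, h2]
      by_contra hc
      have hc0 : 0 < ‖ψ 0 (A (u 1))‖ := norm_pos_iff.2 hc
      obtain ⟨n, hn⟩ := hK (‖A‖ / ‖ψ 0 (A (u 1))‖)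
      have h1 : ‖ψ n (A (u (n + 1)))‖ ≤ 1 / ‖u n‖ * (‖A‖ * ‖u (n + 1)‖) :=
        ((ψ n).le_opNorm _).trans (mul_le_mul (hψn n) (A.le_opNorm _) (norm_nonneg _)
          (div_nonneg zero_le_one (hw n).le))
      rw [e, one_div, ← div_eq_inv_mul, le_div_iff₀ (hw n)] at h1
      rw [div_mul_eq_mul_div, div_lt_iff₀ hc0] at hn
      linarith
    have all : ∀ j : ℕ, u (j + 1) ∈ hypKer S (ψ 0) := fun j => by
      induction j with
      | zero =>
        rw [Nat.cast_zero, zero_add]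
        exact one
      | succ j ih =>
        rw [Nat.cast_succ, ← hu]
        exact hypKer_inv rfl _ _ ih
    have hκ0 : κ = 0 := by
      by_contra h0
      rcases lt_or_gt_of_ne h0 with h | h
      · obtain ⟨j, hj⟩ : ∃ j : ℕ, (j : ℤ) + 1 = -κ := ⟨(-κ - 1).toNat, by omega⟩
        have h1 := all j T hT
        have h2 := toeplitz hu hψ hT κ (-κ)
        rw [neg_add_cancel, ← hj, h1] at h2
        exact hκ h2.symm
      · obtain ⟨j, hj⟩ : ∃ j : ℕ, (j : ℤ) + 1 = κ := ⟨(κ - 1).toNat, by omega⟩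
        have h1 := red _ _ (all j)
        rw [hadj, hj, sub_zero] at h1
        rcases mul_eq_zero.1 h1 with h2 | h2
        · exact hκ ((map_eq_zero _).1 h2)
        · have := pow_eq_zero_iff (two_ne_zero) |>.1 h2
          exact (div_pos (hw _) (hw _)).ne' (Complex.ofReal_eq_zero.1 this)
    subst hκ0
    intro m n
    simp [(hw _).ne']

end Pool.Agent.P.MP_49c4d9_an.SC
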