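import Pool.Agent.P.MP_49c4d9_an.SC.Seq

set_option autoImplicit false

namespace Pool.Agent.P.MP_49c4d9_an.SC

open Filter Topology
open Pool.Agent.P.MP_f981b0_an (weight_core)

variable {w : ℤ → ℝ} {K : ℝ}

/-- The rectangle identity. -/
def Rect (l : ℤ → ℝ) (s t : ℤ) : Prop := ∀ m, l (m + s + t) + l m = l (m + s) + l (m + t)

lemma Rect.symm {l : ℤ → ℝ} {s t : ℤ} (h : Rect l s t) : Rect l t s := fun m => by
  have := h m
  rw [add_right_comm m t s]
  linarith

lemma Rect.mul {l : ℤ → ℝ} {s t : ℤ} (h : Rect l s t) (c : ℤ) : Rect l (s * c) t := by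
  have per : Function.Periodic (fun m => l (m + t) - l m) s := fun m => by
    have := h m
    simp only
    linarith
  intro m
  have := per.int_mul c m
  simp only [Int.cast_id] at this
  rw [mul_comm s c]
  linarith

lemma periodic_bdd {b : ℤ → ℝ} {N : ℤ} (hN : N ≠ 0) (hb : Function.Periodic b N) :
    ∃ B, ∀ n, |b n| ≤ B := by
  refine ⟨∑ r ∈ Finset.Ico 0 |N|, |b r|, fun n => ?_⟩
  have e : b n = b (n % N) := by
    have := hb.int_mul (n / N) (n % N)
    simp only [Int.cast_id] at this
    rw [← this]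
    congr 1
    have := Int.emod_add_mul_ediv n N
    linarith
  rw [e]
  exact Finset.single_le_sum (f := fun r => |b r|) (fun _ _ => abs_nonneg _)
    (Finset.mem_Ico.2 ⟨Int.emod_nonneg _ hN, Int.emod_lt_abs _ hN⟩)

/-- A sequence with bounded increments which satisfies a rectangle identity is linear up to a
bounded error. -/
lemma rect_linear {l : ℤ → ℝ} {L : ℝ} (hL : ∀ m, |l (m + 1) - l m| ≤ L) {N : ℤ} (hN : N ≠ 0)
    (h : Rect l N N) : ∃ β B : ℝ, ∀ n, |l n - n * β| ≤ B := by
  have perρ : Function.Periodic (fun m => l (m + N) - l m) N := fun m => by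
    have := h m
    simp only
    linarith
  have hτ : ∀ m, l (m + 1 + N) - l (m + 1) = l (m + N) - l m := by
    intro m
    set τ := (l (m + 1 + N) - l (m + 1)) - (l (m + N) - l m) with hτ
    have it : ∀ j : ℕ, l (m + j * N + 1) - l (m + j * N) = l (m + 1) - l m + j * τ := by
      intro j
      induction j with
      | zero => simp
      | succ j ih =>
        have a1 := perρ.nat_mul j m
        have a2 := perρ.nat_mul j (m + 1)
        push_cast
        rw [show m + (j + 1) * N + 1 = m + 1 + j * N + N by ring,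
          show m + (j + 1) * N = m + j * N + N by ring]
        rw [show m + j * N + 1 = m + 1 + j * N by ring] at ih
        linarith
    by_contra hc
    have hτ0 : 0 < |τ| := abs_pos.2 (sub_ne_zero.2 hc)
    obtain ⟨j, hj⟩ := exists_nat_gt (2 * L / |τ|)
    rw [div_lt_iff₀ hτ0] at hj
    have b1 := hL (m + j * N)
    have b2 := hL m
    rw [it j] at b1
    have b3 : |(j : ℝ) * τ| ≤ 2 * L := by
      have := abs_sub (l (m + 1) - l m + j * τ) (l (m + 1) - l m)
      rw [add_sub_cancel_left] at this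
      linarith
    rw [abs_mul, Nat.abs_cast] at b3
    linarith
  have hρ : ∀ m, l (m + N) - l m = l (0 + N) - l 0 := by
    intro m
    induction m using Int.induction_on with
    | zero => rfl
    | succ n ih => rw [hτ, ih]
    | pred n ih => rw [← hτ, sub_add_cancel, ih]
  refine ⟨(l (0 + N) - l 0) / N, ?_⟩
  refine periodic_bdd hN fun m => ?_
  have := hρ m
  have hN' : (N : ℝ) ≠ 0 := by exact_mod_cast hN
  push_cast
  rw [add_mul, mul_div_cancel₀ _ hN']
  linarith

lemma mul_transfer (h : Wt w K) {β B : ℝ} (hB : ∀ n, |Real.log (w n) - n * β| ≤ B)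
    {γ : ℤ → ℂ} (hγ : Mul w γ) : Mul (fun _ => 1) γ := by
  let b : ℤ → ℝ := fun n => Real.log (w n) - n * β
  have hw : ∀ n, w n = Real.exp (b n) * Real.exp (n * β) := fun n => by
    rw [← Real.exp_add, sub_add_cancel, Real.exp_log (h.pos n)]
  have n1 : ∀ n, ‖((Real.exp (b n) : ℝ) : ℂ)‖ ≤ Real.exp B := fun n => by
    rw [Complex.norm_real, Real.norm_eq_abs, Real.abs_exp]
    exact Real.exp_le_exp.2 (abs_le.1 (hB n)).2
  have n2 : ∀ n, ‖((Real.exp (-b n) : ℝ) : ℂ)‖ ≤ Real.exp B := fun n => by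
    rw [Complex.norm_real, Real.norm_eq_abs, Real.abs_exp]
    exact Real.exp_le_exp.2 (by have := (abs_le.1 (hB n)).1; simp only [b]; linarith)
  have key : ∀ (p g : ℤ → ℂ) (k n : ℤ),
      (Real.exp (b n) : ℝ) * p n * ((Real.exp (-b (n + k)) : ℝ) * g (n + k)) *
        ((w (n + k) / w n : ℝ) : ℂ) =
      ((Real.exp (k * β) : ℝ) : ℂ) * (p n * g (n + k) * (((1 : ℝ) / 1 : ℝ) : ℂ)) := by
    intro p g k n
    have e : Real.exp (b n) * Real.exp (-b (n + k)) * (w (n + k) / w n) = Real.exp (k * β) := by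
      rw [hw, hw n, Real.exp_neg]
      push_cast
      rw [add_mul, Real.exp_add]
      field_simp
    rw [← e]
    push_cast
    ring
  intro p g hp
  have h1 : Pair w (fun n => (Real.exp (b n) : ℝ) * p n)
      fun m => (Real.exp (-b m) : ℝ) * g m := by
    refine ⟨summable_bdd hp.1 n1, summable_bdd hp.2.1 n2, fun k => ?_⟩
    simp only [key]
    rw [tsum_mul_left, hp.2.2, mul_zero]
  have h2 := hγ _ _ h1
  refine ⟨hp.1, ?_, fun k => ?_⟩
  · have := summable_bdd h2.2.1 n1
    refine this.congr fun n => ?_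
    congr 1
    have e : ((Real.exp (b n) : ℝ) : ℂ) * (Real.exp (-b n) : ℝ) = 1 := by
      rw [← Complex.ofReal_mul, ← Real.exp_add]; simp
    linear_combination (γ n * g n) * e
  · have h3 := h2.2.2 k
    have e : ∀ n, (Real.exp (b n) : ℝ) * p n * (γ (n + k) * ((Real.exp (-b (n + k)) : ℝ) *
        g (n + k))) * ((w (n + k) / w n : ℝ) : ℂ) = ((Real.exp (k * β) : ℝ) : ℂ) *
        (p n * (γ (n + k) * g (n + k)) * (((1 : ℝ) / 1 : ℝ) : ℂ)) := fun n => by
      rw [← key p (fun m => γ m * g m) k n]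
      ring
    simp only [e] at h3
    rw [tsum_mul_left] at h3
    exact (mul_eq_zero.1 h3).resolve_left (Complex.ofReal_ne_zero.2 (Real.exp_pos _).ne')

/-- If every pair is also annihilated by the adjoint of the `κ`-th power of the shift, then this
power has constant weights. -/
theorem ratio_const (h : Wt w K) {κ : ℤ}
    (hstar : ∀ p g, Pair w p g → ∑' n, p n * g (n - κ) * ((w n / w (n - κ) : ℝ) : ℂ) = 0)
    (m n : ℤ) : w (m + κ) / w m = w (n + κ) / w n := by
  classical
  rcases eq_or_ne κ 0 with rfl | hκ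
  · simp [(h.pos _).ne']
  let δ : ℤ → ℝ := fun m => (w (m + κ) / w m) ^ 2
  have r0 : ∀ m, 0 < w (m + κ) / w m := fun m => div_pos (h.pos _) (h.pos _)
  have hδB : ∀ m, δ m ≤ (K ^ κ.natAbs) ^ 2 := fun m =>
    pow_le_pow_left₀ (r0 m).le (h.ratio m κ) 2
  have hδ : Mul w fun m => (δ m : ℂ) := by
    intro p g hp
    refine ⟨hp.1, summable_bdd hp.2.1 (B := (K ^ κ.natAbs) ^ 2) fun m => ?_, fun l => ?_⟩
    · rw [Complex.norm_real, Real.norm_eq_abs, abs_of_nonneg (sq_nonneg _)]
      exact hδB m
    · have h1 := hstar _ _ (hp.shift_left h (l + κ))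
      rw [← (Equiv.addRight (l + κ)).tsum_eq] at h1
      rw [← h1]
      refine tsum_congr fun y => ?_
      have e : y + (l + κ) - κ = y + l := by ring
      simp only [Equiv.coe_addRight, add_sub_cancel_right, e, δ, add_assoc]
      have := h.ne (y + l)
      have := h.ne y
      push_cast
      field_simp
  have hname := mul_name h (fun m => sq_nonneg _) hδB hδ
  let Per : AddSubgroup ℤ :=
    { carrier := {t | Function.Periodic δ t}
      add_mem' := fun ha hb => ha.add_period hb
      zero_mem' := fun _ => by simp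
      neg_mem' := fun ha => ha.neg }
  obtain ⟨a, ha⟩ := Int.subgroup_cyclic Per
  have hper : ∀ t, Function.Periodic δ t ↔ a ∣ t := fun t => by
    have : t ∈ Per ↔ t ∈ AddSubgroup.closure {a} := by rw [ha]
    rw [AddSubgroup.mem_closure_singleton] at this
    refine this.trans ⟨fun ⟨c, hc⟩ => ⟨c, by rw [← hc, smul_eq_mul, mul_comm]⟩,
      fun ⟨c, hc⟩ => ⟨c, by rw [hc, smul_eq_mul, mul_comm]⟩⟩
  have hres : ∀ m₀ : ℤ, Mul w fun m => if a ∣ m - m₀ then 1 else 0 := by
    intro m₀
    suffices hs : ∀ m, a ∣ m - m₀ ↔ ∀ j, δ (m + j) = δ (m₀ + j) by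
      have e : (fun m => if a ∣ m - m₀ then (1 : ℂ) else 0) =
          fun m => if ∀ j, δ (m + j) = δ (m₀ + j) then 1 else 0 :=
        funext fun m => if_congr (hs m) rfl rfl
      rw [e]
      exact hname m₀
    intro m
    rw [← hper]
    refine ⟨fun hp j => ?_, fun hp x => ?_⟩
    · rw [← hp (m₀ + j)]
      congr 1
      ring
    · have := hp (x - m₀)
      rw [show m₀ + (x - m₀) = x by ring, show m + (x - m₀) = x + (m - m₀) by ring] at this
      exact this
  rcases Nat.lt_trichotomy a.natAbs 1 with ha0 | ha1 | ha2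
  · exfalso
    have ha0' : a = 0 := by omega
    obtain ⟨p, g, sp, sg, p0, g0, hz⟩ := weight_core h.pos h.hK h.up h.down
    obtain ⟨n₀, hn₀⟩ := Function.ne_iff.1 p0
    obtain ⟨m₀, hm₀⟩ := Function.ne_iff.1 g0
    have h1 := (hres m₀ p g ⟨sp, sg, hz⟩).2.2 (m₀ - n₀)
    rw [tsum_eq_single n₀ (fun y hy => by
      simp only
      rw [if_neg, zero_mul, mul_zero, zero_mul]
      rw [ha0', zero_dvd_iff]
      omega)] at h1
    simp only [add_sub_cancel, sub_self, dvd_zero, if_true, one_mul, mul_eq_zero,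
      Complex.ofReal_eq_zero, div_eq_zero_iff] at h1
    rcases h1 with (h1 | h1) | h1 | h1
    exacts [hn₀ h1, hm₀ h1, (h.pos _).ne' h1, (h.pos _).ne' h1]
  · have h1 : a ∣ m - n := Int.natAbs_dvd.1 (by rw [ha1]; exact one_dvd _)
    have h2 := (hper _).2 h1 n
    rw [add_sub_cancel] at h2
    exact (pow_left_inj₀ (r0 m).le (r0 n).le two_ne_zero).1 h2
  · exfalso
    have ha0 : a ≠ 0 := by rintro rfl; simp at ha2
    let l : ℤ → ℝ := fun n => Real.log (w n)
    have R1 : Rect l a κ := fun y => by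
      have h2 := (pow_left_inj₀ (r0 _).le (r0 _).le two_ne_zero).1 ((hper a).2 dvd_rfl y)
      have h3 := congrArg Real.log h2
      rw [Real.log_div (h.pos _).ne' (h.pos _).ne', Real.log_div (h.pos _).ne' (h.pos _).ne'] at h3
      simp only [l]
      linarith
    have R2 : Rect l (a * κ) (a * κ) := by
      have := ((R1.mul κ).symm.mul a).symm
      rwa [mul_comm κ a] at this
    have hK0 : 0 < K := by
      have := h.up 0
      have := h.pos (0 + 1)
      have := h.pos 0
      by_contra hc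
      nlinarith
    have hL : ∀ y, |l (y + 1) - l y| ≤ Real.log K := fun y => by
      have a1 := Real.log_le_log (h.pos _) (h.up y)
      have a2 := Real.log_le_log (h.pos _) (h.down y)
      rw [Real.log_mul hK0.ne' (h.pos _).ne'] at a1 a2
      simp only [l]
      exact abs_le.2 ⟨by linarith, by linarith⟩
    obtain ⟨β, B, hB⟩ := rect_linear hL (mul_ne_zero ha0 hκ) R2
    exact not_mul_residue ha2 fun m₀ => mul_transfer h hB (hres m₀)

end Pool.Agent.P.MP_49c4d9_an.SC
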