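import Pool.Agent.P.MP_f981b0_an.ShiftCore

set_option autoImplicit false

namespace Pool.Agent.P.MP_49c4d9_an.SC

open Filter Topology
open Pool.Agent.P.MP_f981b0_an (ratio_le weight_core)

/-- Two summable sequences whose weighted convolution vanishes. -/
def Pair (w : ℤ → ℝ) (p g : ℤ → ℂ) : Prop :=
  Summable (fun n => ‖p n‖) ∧ Summable (fun n => ‖g n‖) ∧
    ∀ k : ℤ, ∑' n, p n * g (n + k) * ((w (n + k) / w n : ℝ) : ℂ) = 0

/-- Multipliers which preserve such pairs. -/
def Mul (w : ℤ → ℝ) (β : ℤ → ℂ) : Prop :=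
  ∀ p g, Pair w p g → Pair w p fun m => β m * g m

/-- A positive weight with bounded ratios. -/
structure Wt (w : ℤ → ℝ) (K : ℝ) : Prop where
  pos : ∀ n, 0 < w n
  hK : 0 ≤ K
  up : ∀ n, w (n + 1) ≤ K * w n
  down : ∀ n, w n ≤ K * w (n + 1)

variable {w : ℤ → ℝ} {K : ℝ}

lemma Wt.ratio (h : Wt w K) (y k : ℤ) : w (y + k) / w y ≤ K ^ k.natAbs := by
  rw [div_le_iff₀ (h.pos y)]; exact ratio_le h.hK h.up h.down k y

lemma Wt.norm_ratio (h : Wt w K) (y k : ℤ) :
    ‖((w (y + k) / w y : ℝ) : ℂ)‖ ≤ K ^ k.natAbs := by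
  rw [Complex.norm_real, Real.norm_eq_abs, abs_of_pos (div_pos (h.pos _) (h.pos _))]
  exact h.ratio y k

lemma Wt.ne (h : Wt w K) (n : ℤ) : (w n : ℂ) ≠ 0 := Complex.ofReal_ne_zero.2 (h.pos n).ne'

lemma le_tsum_norm {g : ℤ → ℂ} (hg : Summable fun n => ‖g n‖) (m : ℤ) :
    ‖g m‖ ≤ ∑' n, ‖g n‖ := hg.le_tsum m fun _ _ => norm_nonneg _

lemma Wt.term_le (h : Wt w K) {g : ℤ → ℂ} (hg : Summable fun n => ‖g n‖) (p : ℤ → ℂ) (k n : ℤ) :
    ‖p n * g (n + k) * ((w (n + k) / w n : ℝ) : ℂ)‖ ≤ ‖p n‖ * ((∑' n, ‖g n‖) * K ^ k.natAbs) := by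
  rw [norm_mul, norm_mul, mul_assoc]
  exact mul_le_mul_of_nonneg_left (mul_le_mul (le_tsum_norm hg _) (h.norm_ratio n k)
    (norm_nonneg _) (tsum_nonneg fun _ => norm_nonneg _)) (norm_nonneg _)

lemma Wt.summable_term (h : Wt w K) {p g : ℤ → ℂ} (hp : Summable fun n => ‖p n‖)
    (hg : Summable fun n => ‖g n‖) (k : ℤ) :
    Summable fun n => p n * g (n + k) * ((w (n + k) / w n : ℝ) : ℂ) :=
  Summable.of_norm_bounded (hp.mul_right _) (h.term_le hg p k)

lemma summable_bdd {g β : ℤ → ℂ} (hg : Summable fun n => ‖g n‖) {B : ℝ} (hB : ∀ n, ‖β n‖ ≤ B) :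
    Summable fun n => ‖β n * g n‖ := by
  refine Summable.of_nonneg_of_le (fun _ => norm_nonneg _) (fun n => ?_) (hg.mul_left B)
  rw [norm_mul]
  exact mul_le_mul_of_nonneg_right (hB n) (norm_nonneg _)

lemma Pair.shift_left (h : Wt w K) {p g : ℤ → ℂ} (hp : Pair w p g) (j : ℤ) :
    Pair w (fun n => ((w n / w (n - j) : ℝ) : ℂ) * p (n - j)) g := by
  refine ⟨summable_bdd (g := fun n => p (n - j)) ((Equiv.subRight j).summable_iff.2 hp.1)
    (B := K ^ j.natAbs) fun n => ?_, hp.2.1, fun k => ?_⟩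
  · have := h.norm_ratio (n - j) j
    rwa [sub_add_cancel] at this
  · rw [← hp.2.2 (j + k), ← (Equiv.addRight j).tsum_eq]
    refine tsum_congr fun n => ?_
    simp only [Equiv.coe_addRight, add_sub_cancel_right, add_assoc]
    have := h.ne (n + j)
    have := h.ne n
    push_cast
    field_simp

lemma Pair.shift_right (h : Wt w K) {p g : ℤ → ℂ} (hp : Pair w p g) (j : ℤ) :
    Pair w p (fun m => ((w (m + j) / w m : ℝ) : ℂ) * g (m + j)) := by
  refine ⟨hp.1, summable_bdd (g := fun n => g (n + j)) ((Equiv.addRight j).summable_iff.2 hp.2.1)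
    (B := K ^ j.natAbs) fun n => h.norm_ratio n j, fun k => ?_⟩
  rw [← hp.2.2 (k + j)]
  refine tsum_congr fun n => ?_
  simp only [add_assoc]
  have := h.ne (n + k)
  have := h.ne n
  push_cast
  field_simp

lemma Mul.shift (h : Wt w K) {β : ℤ → ℂ} (hβ : Mul w β) (j : ℤ) : Mul w fun m => β (m + j) := by
  intro p g hp
  have := (hβ _ _ (hp.shift_right h (-j))).shift_right h j
  convert this using 2 with m
  simp only [add_neg_cancel_right]
  have := h.ne (m + j)
  have := h.ne m
  push_cast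
  field_simp

lemma Mul.mul {β γ : ℤ → ℂ} (hβ : Mul w β) (hγ : Mul w γ) : Mul w fun m => β m * γ m := by
  intro p g hp
  simpa only [mul_assoc] using hβ _ _ (hγ _ _ hp)

lemma mul_const (c : ℂ) : Mul w fun _ => c := by
  intro p g hp
  refine ⟨hp.1, summable_bdd (β := fun _ => c) hp.2.1 fun _ => le_rfl, fun k => ?_⟩
  have : ∀ n, p n * (c * g (n + k)) * ((w (n + k) / w n : ℝ) : ℂ) =
      c * (p n * g (n + k) * ((w (n + k) / w n : ℝ) : ℂ)) := fun n => by ring
  simp only [this]
  rw [tsum_mul_left, hp.2.2, mul_zero]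

lemma Mul.add (h : Wt w K) {β γ : ℤ → ℂ} (hβ : Mul w β) (hγ : Mul w γ) :
    Mul w fun m => β m + γ m := by
  intro p g hp
  have h1 := hβ _ _ hp
  have h2 := hγ _ _ hp
  refine ⟨hp.1, ?_, fun k => ?_⟩
  · refine Summable.of_nonneg_of_le (fun _ => norm_nonneg _) (fun n => ?_) (h1.2.1.add h2.2.1)
    simp only [add_mul]
    exact norm_add_le _ _
  · have := (h.summable_term hp.1 h1.2.1 k).tsum_add (h.summable_term hp.1 h2.2.1 k)
    rw [h1.2.2, h2.2.2, add_zero] at this
    rw [← this]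
    exact tsum_congr fun n => by ring

lemma Mul.pow {β : ℤ → ℂ} (hβ : Mul w β) (i : ℕ) : Mul w fun m => β m ^ i := by
  induction i with
  | zero => simpa using mul_const 1
  | succ i ih => simpa only [pow_succ] using ih.mul hβ

lemma mul_prod {ι : Type*} (s : Finset ι) {β : ι → ℤ → ℂ} (hβ : ∀ i, Mul w (β i)) :
    Mul w fun m => ∏ i ∈ s, β i m := by
  classical
  induction s using Finset.induction_on with
  | empty => simpa using mul_const 1
  | insert a s ha ih => simpa only [Finset.prod_insert ha] using (hβ a).mul ih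

lemma mul_lim (h : Wt w K) {β : ℕ → ℤ → ℂ} {γ : ℤ → ℂ} (hβ : ∀ i, Mul w (β i))
    (hb : ∀ i m, ‖β i m‖ ≤ 1) (hl : ∀ m, Tendsto (fun i => β i m) atTop (𝓝 (γ m))) :
    Mul w γ := by
  intro p g hp
  have hγ : ∀ m, ‖γ m‖ ≤ 1 := fun m =>
    le_of_tendsto (hl m).norm (Eventually.of_forall fun i => hb i m)
  refine ⟨hp.1, summable_bdd hp.2.1 hγ, fun k => ?_⟩
  have t := tendsto_tsum_of_dominated_convergence (𝓕 := atTop)
    (f := fun i n => p n * (β i (n + k) * g (n + k)) * ((w (n + k) / w n : ℝ) : ℂ))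
    (g := fun n => p n * (γ (n + k) * g (n + k)) * ((w (n + k) / w n : ℝ) : ℂ))
    (bound := fun n => ‖p n‖ * ((∑' n, ‖g n‖) * K ^ k.natAbs)) (hp.1.mul_right _)
    (fun n => (((hl (n + k)).mul_const _).const_mul _).mul_const _)
    (Eventually.of_forall fun i n => by
      refine le_trans ?_ (h.term_le hp.2.1 p k n)
      simp only [norm_mul]
      gcongr
      exact mul_le_of_le_one_left (norm_nonneg _) (hb i _))
  have e : (fun i => ∑' n, p n * (β i (n + k) * g (n + k)) * ((w (n + k) / w n : ℝ) : ℂ)) =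
      fun _ => 0 := funext fun i => (hβ i p g hp).2.2 k
  rw [e] at t
  exact tendsto_nhds_unique t tendsto_const_nhds

open Classical in
/-- The indicator of the points with the same two sided name is a multiplier. -/
lemma mul_name (h : Wt w K) {δ : ℤ → ℝ} {B : ℝ} (h0 : ∀ m, 0 ≤ δ m) (hB : ∀ m, δ m ≤ B)
    (hδ : Mul w fun m => (δ m : ℂ)) (m₀ : ℤ) :
    Mul w fun m => if ∀ j, δ (m + j) = δ (m₀ + j) then 1 else 0 := by
  have hB0 : 0 < B ^ 2 + 1 := by positivity
  have one : ∀ j, Mul w fun m => if δ (m + j) = δ (m₀ + j) then 1 else 0 := by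
    intro j
    let r : ℤ → ℝ := fun m => 1 - (δ (m + j) - δ (m₀ + j)) ^ 2 / (B ^ 2 + 1)
    have hr0 : ∀ m, 0 ≤ r m := fun m => by
      simp only [r, sub_nonneg]
      rw [div_le_one hB0]
      nlinarith [h0 (m + j), h0 (m₀ + j), hB (m + j), hB (m₀ + j)]
    have hr1 : ∀ m, r m ≤ 1 := fun m => by
      simp only [r, sub_le_self_iff]
      positivity
    have hr : Mul w fun m => (r m : ℂ) := by
      have a1 := (hδ.shift h j).add h (mul_const (-(δ (m₀ + j) : ℂ)))
      have a2 := (mul_const (w := w) 1).add h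
        ((a1.pow 2).mul (mul_const (-((B : ℂ) ^ 2 + 1)⁻¹)))
      convert a2 using 2 with m
      simp only [r]
      push_cast
      ring
    refine mul_lim h (β := fun i m => (r m : ℂ) ^ i) (fun i => hr.pow i) (fun i m => ?_)
      fun m => ?_
    · rw [norm_pow, Complex.norm_real, Real.norm_eq_abs, abs_of_nonneg (hr0 m)]
      exact pow_le_one₀ (hr0 m) (hr1 m)
    · split_ifs with hm
      · simp [r, hm]
      · refine tendsto_pow_atTop_nhds_zero_of_norm_lt_one ?_
        rw [Complex.norm_real, Real.norm_eq_abs, abs_of_nonneg (hr0 m)]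
        simp only [r, sub_lt_self_iff]
        have := sub_ne_zero.2 hm
        positivity
  refine mul_lim h (β := fun i m => ∏ j ∈ Finset.Icc (-(i : ℤ)) i,
    if δ (m + j) = δ (m₀ + j) then 1 else 0) (fun i => mul_prod _ one) (fun i m => ?_) fun m => ?_
  · rw [norm_prod]
    refine Finset.prod_le_one (fun _ _ => norm_nonneg _) fun j _ => ?_
    split_ifs <;> simp
  · split_ifs with hm
    · simp [hm]
    · push Not at hm
      obtain ⟨j, hj⟩ := hm
      refine tendsto_const_nhds.congr' ?_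
      refine (eventually_ge_atTop j.natAbs).mono fun i hi => ?_
      exact (Finset.prod_eq_zero (i := j) (Finset.mem_Icc.2 ⟨by omega, by omega⟩) (if_neg hj)).symm

lemma wt_one : Wt (fun _ => 1) 1 := ⟨fun _ => one_pos, zero_le_one, by simp, by simp⟩

open Classical in
/-- In the unweighted case the residue classes are not all multipliers. -/
lemma not_mul_residue {a : ℤ} (ha : 2 ≤ a.natAbs)
    (hm : ∀ m₀ : ℤ, Mul (fun _ => 1) fun m => if a ∣ m - m₀ then 1 else 0) : False := by
  have ha0 : a ≠ 0 := by rintro rfl; simp at ha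
  have step : ∀ p g, Pair (fun _ => 1) p g → ∀ n₀ m₀ : ℤ,
      Pair (fun _ => 1) (fun t => p (n₀ + a * t)) fun t => g (m₀ + a * t) := by
    intro p g hp n₀ m₀
    have inj : ∀ c : ℤ, Function.Injective fun t : ℤ => c + a * t := fun c s t hst =>
      mul_left_cancel₀ ha0 (add_left_cancel hst)
    refine ⟨hp.1.comp_injective (inj n₀), hp.2.1.comp_injective (inj m₀), fun l => ?_⟩
    have h1 := (hm m₀ p g hp).2.2 (m₀ - n₀ + a * l)
    rw [← (inj n₀).tsum_eq] at h1
    · rw [← h1]
      refine tsum_congr fun t => ?_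
      have e : n₀ + a * t + (m₀ - n₀ + a * l) = m₀ + a * (t + l) := by ring
      simp only [e, add_sub_cancel_left, dvd_mul_right, if_true, one_mul]
    · intro n hn
      rw [Function.mem_support] at hn
      by_contra hc
      apply hn
      simp only
      rw [if_neg, zero_mul, mul_zero, zero_mul]
      rintro ⟨c, hc'⟩
      exact hc ⟨c - l, by simp only; linarith⟩
  obtain ⟨p, g, sp, sg, p0, g0, hz⟩ := weight_core (w := fun _ => 1) wt_one.pos wt_one.hK
    wt_one.up wt_one.down
  obtain ⟨n₀, hn₀⟩ := Function.ne_iff.1 p0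
  obtain ⟨m₀, hm₀⟩ := Function.ne_iff.1 g0
  have iter : ∀ i : ℕ, Pair (fun _ => 1) (fun t => p (n₀ + a ^ i * t)) fun t =>
      g (m₀ + a ^ i * t) := by
    intro i
    induction i with
    | zero =>
      simp only [pow_zero, one_mul]
      refine ⟨sp.comp_injective (add_right_injective n₀),
        sg.comp_injective (add_right_injective m₀), fun l => ?_⟩
      · have h1 := hz (m₀ - n₀ + l)
        rw [← (Equiv.addLeft n₀).tsum_eq] at h1
        rw [← h1]
        refine tsum_congr fun t => ?_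
        have e : n₀ + t + (m₀ - n₀ + l) = m₀ + (t + l) := by ring
        simp [e]
    | succ i ih =>
      have := step _ _ ih 0 0
      simpa only [zero_add, pow_succ, mul_assoc] using this
  let G : ℝ := ∑' n, ‖g n‖
  have bound : ∀ i : ℕ, ‖p n₀ * g m₀‖ ≤
      G * ∑' x : {x // x ∉ Finset.Icc (-(i : ℤ)) i}, ‖p (n₀ + x)‖ := by
    intro i
    have h1 := (iter i).2.2 0
    have s1 := wt_one.summable_term (iter i).1 (iter i).2.1 0
    simp only [add_zero, div_one, Complex.ofReal_one, mul_one] at h1 s1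
    rw [s1.tsum_eq_add_tsum_ite 0] at h1
    simp only [mul_zero, add_zero] at h1
    rw [eq_neg_of_add_eq_zero_left h1, norm_neg]
    have sp' : Summable fun x : ℤ => ‖p (n₀ + x)‖ :=
      sp.comp_injective (add_right_injective n₀)
    let F : ℤ → ℝ := fun x => if x ∈ Finset.Icc (-(i : ℤ)) i then 0 else ‖p (n₀ + x)‖
    have hF0 : ∀ x, 0 ≤ F x := fun x => by
      simp only [F]
      split_ifs
      exacts [le_rfl, norm_nonneg _]
    have hF1 : ∀ x, F x ≤ ‖p (n₀ + x)‖ := fun x => by
      simp only [F]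
      split_ifs
      exacts [norm_nonneg _, le_rfl]
    have sF : Summable F := Summable.of_nonneg_of_le hF0 hF1 sp'
    have eF : ∑' x : {x // x ∉ Finset.Icc (-(i : ℤ)) i}, ‖p (n₀ + x)‖ = ∑' x, F x := by
      refine (tsum_subtype {x | x ∉ Finset.Icc (-(i : ℤ)) i} fun x => ‖p (n₀ + x)‖).trans ?_
      refine tsum_congr fun x => ?_
      simp only [F, Set.indicator_apply, Set.mem_ofPred_eq]
      split_ifs <;> simp_all
    have inj : Function.Injective fun t : ℤ => a ^ i * t := fun s t hst =>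
      mul_left_cancel₀ (pow_ne_zero i ha0) hst
    have b1 : ∑' t, F (a ^ i * t) ≤ ∑' x, F x :=
      (sF.comp_injective inj).tsum_le_tsum_of_inj _ inj (fun c _ => hF0 c) (fun _ => le_rfl) sF
    rw [eF]
    refine le_trans (tsum_of_norm_bounded ((sF.comp_injective inj).mul_left G).hasSum
      fun t => ?_) ?_
    · split_ifs with ht
      · rw [norm_zero]
        exact mul_nonneg (tsum_nonneg fun _ => norm_nonneg _) (hF0 _)
      · have hx : a ^ i * t ∉ Finset.Icc (-(i : ℤ)) i := by
          have c1 : i < (a ^ i * t).natAbs := by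
            rw [Int.natAbs_mul, Int.natAbs_pow]
            have c2 : i < 2 ^ i := Nat.lt_two_pow_self
            have c3 : 2 ^ i ≤ a.natAbs ^ i := Nat.pow_le_pow_left ha i
            have c4 : 1 ≤ t.natAbs := Int.natAbs_pos.2 ht
            nlinarith
          rw [Finset.mem_Icc]
          omega
        simp only [Function.comp_apply, F, if_neg hx, norm_mul]
        rw [mul_comm]
        exact mul_le_mul_of_nonneg_right (le_tsum_norm sg _) (norm_nonneg _)
    · rw [tsum_mul_left]
      exact mul_le_mul_of_nonneg_left b1 (tsum_nonneg fun _ => norm_nonneg _)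
  have t := ((tendsto_tsum_compl_atTop_zero fun x : ℤ => ‖p (n₀ + x)‖).comp
    (Finset.tendsto_Icc_neg (R := ℤ))).const_mul G
  rw [mul_zero] at t
  have := ge_of_tendsto' t bound
  exact mul_ne_zero hn₀ hm₀ (norm_le_zero_iff.1 this)

end Pool.Agent.P.MP_49c4d9_an.SC
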